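import Mathlib

/-!
# Hertzsprung patterns and palindromic prefixes: definitions
-/

open Equiv

namespace Pool.Agent.H62.Hertz

/-- The pattern `σ` occurs in `π` at position `i`: there is an integer `d` with
`π (i + j) = σ j + d` for all `j`. -/
def OccAt {k n : ℕ} (σ : Perm (Fin k)) (π : Perm (Fin n)) (i : ℕ) : Prop :=
  ∃ d : ℤ, ∀ j : Fin k, ∃ h : i + (j : ℕ) < n,
    ((π ⟨i + (j : ℕ), h⟩ : ℕ) : ℤ) = ((σ j : ℕ) : ℤ) + d

/-- `σ` occurs in `π` as a Hertzsprung pattern. -/
def Occurs {k n : ℕ} (σ : Perm (Fin k)) (π : Perm (Fin n)) : Prop := ∃ i : ℕ, OccAt σ π i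

/-- The number of permutations in `S_n` avoiding the Hertzsprung pattern `σ`. -/
noncomputable def avoidCount {k : ℕ} (σ : Perm (Fin k)) (n : ℕ) : ℕ :=
  Nat.card {π : Perm (Fin n) // ¬ Occurs σ π}

/-- Wilf equivalence on `S_k`. -/
def wilf (k : ℕ) : Setoid (Perm (Fin k)) where
  r σ τ := ∀ n : ℕ, avoidCount σ n = avoidCount τ n
  iseqv := ⟨fun _ _ => rfl, fun h n => (h n).symm, fun h h' n => (h n).trans (h' n)⟩

/-- The number of Wilf classes of `S_k`. -/
noncomputable def wilfClasses (k : ℕ) : ℕ := Nat.card (Quotient (wilf k))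

/-- The set of lengths `i ≥ 1` of palindromic beginnings of the word `w`. -/
def palLengths (w : List Bool) : Set ℕ :=
  {i | 1 ≤ i ∧ i ≤ w.length ∧ (w.take i).reverse = w.take i}

/-- The number of sets `palLengths w`, where `w` runs over the binary palindromes of length `m`. -/
noncomputable def palCount (m : ℕ) : ℕ :=
  Set.ncard {s : Set ℕ | ∃ w : List Bool, w.length = m ∧ w.reverse = w ∧ palLengths w = s}

end Pool.Agent.H62.Hertz
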