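import Pool.Agent.H62.Hertz.Overlap
import Pool.Agent.H62.Hertz.Defs

/-!
# Wilf classes are determined by the sets of overlaps
-/

open Equiv

namespace Pool.Agent.H62.Hertz

variable {k n : ℕ}

lemma OccAt.bound {σ : Perm (Fin k)} {π : Perm (Fin n)} {i : ℕ} (hk : 1 ≤ k)
    (h : OccAt σ π i) : i + k ≤ n := by
  obtain ⟨d, h⟩ := h
  obtain ⟨h1, _⟩ := h ⟨k - 1, by omega⟩
  simp only at h1
  omega

open Classical in
/-- number of permutations with occurrences of `σ` at all the positions in `M` -/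
noncomputable def N (σ : Perm (Fin k)) (n : ℕ) (M : Finset ℕ) : ℕ :=
  (Finset.univ.filter fun π : Perm (Fin n) => ∀ i ∈ M, OccAt σ π i).card

lemma avoidCount_eq (hk : 1 ≤ k) (σ : Perm (Fin k)) (n : ℕ) :
    (avoidCount σ n : ℤ) = ∑ M ∈ (Finset.range n).powerset, (-1) ^ M.card * (N σ n M : ℤ) := by
  classical
  set Oc : Perm (Fin n) → Finset ℕ := fun π => (Finset.range n).filter fun i => OccAt σ π i with hOc
  have hmem : ∀ (π : Perm (Fin n)) (i : ℕ), i ∈ Oc π ↔ OccAt σ π i := by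
    intro π i
    simp only [hOc, Finset.mem_filter, Finset.mem_range, and_iff_right_iff_imp]
    intro h
    have := h.bound hk
    omega
  have h1 : ∀ π : Perm (Fin n), ¬ Occurs σ π ↔ Oc π = ∅ := by
    intro π
    rw [Finset.eq_empty_iff_forall_notMem]
    simp only [hmem, Occurs, not_exists]
  have h2 : (avoidCount σ n : ℤ) = ∑ π : Perm (Fin n), if Oc π = ∅ then (1 : ℤ) else 0 := by
    rw [avoidCount, Nat.card_eq_fintype_card, Fintype.card_subtype, Finset.sum_ite,
      Finset.sum_const_zero, add_zero, Finset.sum_const, nsmul_eq_mul, mul_one]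
    congr 2
    ext π
    simp [h1]
  rw [h2]
  have h3 : ∀ π : Perm (Fin n), (if Oc π = ∅ then (1 : ℤ) else 0) =
      ∑ M ∈ (Finset.range n).powerset, if M ⊆ Oc π then (-1) ^ M.card else 0 := by
    intro π
    rw [← Finset.sum_powerset_neg_one_pow_card, ← Finset.sum_filter]
    refine Finset.sum_congr ?_ fun _ _ => rfl
    ext M
    simp only [Finset.mem_powerset, Finset.mem_filter]
    exact ⟨fun h => ⟨h.trans (Finset.filter_subset _ _), h⟩, fun h => h.2⟩
  simp only [h3]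
  rw [Finset.sum_comm]
  refine Finset.sum_congr rfl fun M _ => ?_
  rw [← Finset.sum_filter, Finset.sum_const, nsmul_eq_mul, mul_comm]
  congr 2
  unfold N
  congr 1
  ext π
  simp only [Finset.mem_filter, Finset.mem_univ, true_and, Finset.subset_iff, hmem]

lemma cpl_cast {k : ℕ} (σ : Perm (Fin k)) (i : Fin k) :
    ((cpl σ i : ℕ) : ℤ) = (k : ℤ) - 1 - ((σ i : ℕ) : ℤ) := by
  have h := (σ i).isLt
  rw [cpl_apply]
  omega

lemma occAt_cpl {σ : Perm (Fin k)} {π : Perm (Fin n)} {i : ℕ} (h : OccAt σ π i) :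
    OccAt (cpl σ) (cpl π) i := by
  obtain ⟨d, h⟩ := h
  refine ⟨(n : ℤ) - k - d, fun j => ?_⟩
  obtain ⟨h1, h2⟩ := h j
  refine ⟨h1, ?_⟩
  rw [cpl_cast, cpl_cast, h2]
  ring

lemma N_cpl_le (σ : Perm (Fin k)) (M : Finset ℕ) : N σ n M ≤ N (cpl σ) n M := by
  classical
  unfold N
  refine Finset.card_le_card_of_injOn (fun π => cpl π) ?_ ?_
  · intro π hπ
    simp only [Finset.coe_filter, Finset.mem_univ, true_and, Set.mem_ofPred_eq] at hπ ⊢
    exact fun i hi => occAt_cpl (hπ i hi)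
  · intro π _ π' _ h
    have : cpl (cpl π) = cpl (cpl π') := congrArg cpl h
    rwa [cpl_cpl, cpl_cpl] at this

lemma N_cpl (σ : Perm (Fin k)) (M : Finset ℕ) : N (cpl σ) n M = N σ n M := by
  refine le_antisymm ?_ (N_cpl_le σ M)
  have := N_cpl_le (n := n) (cpl σ) M
  rwa [cpl_cpl] at this

/-- Two overlapping occurrences. -/
lemma occ_occ {σ : Perm (Fin k)} {π : Perm (Fin n)} {i i' : ℕ} (h : OccAt σ π i)
    (h' : OccAt σ π i') (h1 : i < i') (h2 : i' < i + k) : i' - i ∈ Ov σ := by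
  classical
  obtain ⟨d, h⟩ := h
  obtain ⟨d', h'⟩ := h'
  set p := i' - i with hp
  -- the value set at the positions of the overlap
  have key : ((Finset.univ : Finset (Fin (k - p))).image fun j : Fin (k - p) =>
      ((σ ⟨j, by omega⟩ : ℕ) : ℤ) + d') = Finset.Ico d (d + k) ∩ Finset.Ico d' (d' + k) := by
    ext v
    simp only [Finset.mem_image, Finset.mem_univ, true_and, Finset.mem_inter, Finset.mem_Ico]
    constructor
    · rintro ⟨j, rfl⟩
      obtain ⟨a1, a2⟩ := h' ⟨j, by omega⟩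
      obtain ⟨b1, b2⟩ := h ⟨j + p, by omega⟩
      have e : (⟨i' + (j : ℕ), a1⟩ : Fin n) = ⟨i + ((j : ℕ) + p), b1⟩ := by ext; simp; omega
      rw [e] at a2
      have hlt1 := (σ ⟨j, by omega⟩).isLt
      have hlt2 := (σ ⟨j + p, by omega⟩).isLt
      simp only at a2 b2
      omega
    · rintro ⟨⟨c1, c2⟩, c3, c4⟩
      -- preimages under both occurrences
      obtain ⟨x, hx⟩ : ∃ x : Fin k, ((σ x : ℕ) : ℤ) + d = v :=
        ⟨σ.symm ⟨(v - d).toNat, by omega⟩, by simp; omega⟩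
      obtain ⟨y, hy⟩ : ∃ y : Fin k, ((σ y : ℕ) : ℤ) + d' = v :=
        ⟨σ.symm ⟨(v - d').toNat, by omega⟩, by simp; omega⟩
      obtain ⟨a1, a2⟩ := h x
      obtain ⟨b1, b2⟩ := h' y
      have hxy : (⟨i + (x : ℕ), a1⟩ : Fin n) = ⟨i' + (y : ℕ), b1⟩ := by
        apply π.injective
        ext
        omega
      simp only [Fin.mk.injEq] at hxy
      refine ⟨⟨y, by omega⟩, ?_⟩
      exact hy
  have hcard := congrArg Finset.card key
  rw [Finset.card_image_of_injective, Finset.card_univ, Fintype.card_fin,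
    Finset.Ico_inter_Ico, Int.card_Ico] at hcard
  swap
  · intro a b hab
    simp only [add_left_inj, Nat.cast_inj] at hab
    have := σ.injective (Fin.ext hab)
    simpa [Fin.ext_iff] using this
  have hpk : p < k := by omega
  have hsplit : d' - d = p ∨ d' - d = -p := by
    rcases le_total d d' with hd | hd
    · rw [max_eq_right hd, min_eq_left (by omega)] at hcard
      left; omega
    · rw [max_eq_left hd, min_eq_right (by omega)] at hcard
      right; omega
  refine ⟨by omega, hpk, ?_⟩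
  have hrel : ∀ (j : ℕ) (hj : j + p < k),
      ((σ ⟨j + p, hj⟩ : ℕ) : ℤ) + d = ((σ ⟨j, by omega⟩ : ℕ) : ℤ) + d' := by
    intro j hj
    obtain ⟨a1, a2⟩ := h' ⟨j, by omega⟩
    obtain ⟨b1, b2⟩ := h ⟨j + p, hj⟩
    have e : (⟨i' + j, a1⟩ : Fin n) = ⟨i + (j + p), b1⟩ := by ext; simp; omega
    simp only at a2 b2
    rw [e] at a2
    rw [← b2, ← a2]
  rcases hsplit with hs | hs
  · left
    intro j hj
    have := hrel j hj
    omega
  · right
    intro j hj
    have := hrel j hj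
    omega

/-- The permutation of `{0, ..., n-1}` which rearranges each cluster in place. -/
lemma exists_canon (σ : Perm (Fin k)) (M : Finset ℕ) (hM : ∀ i ∈ M, i + k ≤ n)
    (hc : ∀ i ∈ M, ∀ i' ∈ M, i < i' → i' < i + k → OPlus σ (i' - i)) :
    ∃ P : Perm (Fin n), ∀ i ∈ M, ∀ (j : Fin k) (h : i + (j : ℕ) < n),
      (P ⟨i + (j : ℕ), h⟩ : ℕ) = i + (σ j : ℕ) := by
  classical
  set F : ℕ → ℕ := fun x => if h : ∃ i ∈ M, i ≤ x ∧ x < i + k then
    h.choose + (σ ⟨x - h.choose, by have := h.choose_spec; omega⟩ : ℕ) else x with hF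
  have consist : ∀ i ∈ M, ∀ i' ∈ M, ∀ x, (h1 : i ≤ x) → (h2 : x < i + k) → (h3 : i' ≤ x) →
      (h4 : x < i' + k) → i < i' →
      i + (σ ⟨x - i, by omega⟩ : ℕ) = i' + (σ ⟨x - i', by omega⟩ : ℕ) := by
    intro i hi i' hi' x h1 h2 h3 h4 h5
    have h6 := hc i hi i' hi' h5 (by omega) (x - i') (by omega)
    have e : (⟨x - i' + (i' - i), by omega⟩ : Fin k) = ⟨x - i, by omega⟩ := by ext; simp; omega
    rw [e] at h6
    omega
  have hFi : ∀ i ∈ M, ∀ x, (h1 : i ≤ x) → (h2 : x < i + k) →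
      F x = i + (σ ⟨x - i, by omega⟩ : ℕ) := by
    intro i hi x h1 h2
    have hex : ∃ i ∈ M, i ≤ x ∧ x < i + k := ⟨i, hi, h1, h2⟩
    have hFx : F x = hex.choose + (σ ⟨x - hex.choose, by
        have := hex.choose_spec; omega⟩ : ℕ) := by
      simp only [hF]; rw [dif_pos hex]
    rw [hFx]
    obtain ⟨s1, s2, s3⟩ := hex.choose_spec
    rcases lt_trichotomy hex.choose i with h | h | h
    · exact consist _ s1 i hi x s2 s3 h1 h2 h
    · have e : (⟨x - hex.choose, by omega⟩ : Fin k) = ⟨x - i, by omega⟩ := by ext; simp [h]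
      rw [e, h]
    · exact (consist i hi _ s1 x h1 h2 s2 s3 h).symm
  have hFn : ∀ x, (¬ ∃ i ∈ M, i ≤ x ∧ x < i + k) → F x = x := by
    intro x h
    simp only [hF]; rw [dif_neg h]
  have hFin : ∀ i ∈ M, ∀ x, i ≤ x → x < i + k → i ≤ F x ∧ F x < i + k := by
    intro i hi x h1 h2
    rw [hFi i hi x h1 h2]
    have := (σ ⟨x - i, by omega⟩).isLt
    omega
  have hback : ∀ i ∈ M, ∀ x, (∃ i ∈ M, i ≤ x ∧ x < i + k) → i ≤ F x → F x < i + k →
      i ≤ x ∧ x < i + k := by
    intro i hi x ⟨c, hc1, hc2, hc3⟩ h1 h2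
    have h3 := hFin c hc1 x hc2 hc3
    have h4 := hFi c hc1 x hc2 hc3
    rcases lt_trichotomy c i with h | h | h
    · -- c < i
      have h5 := hc c hc1 i hi h (by omega)
      have h6 := (h5.ge_iff ⟨x - c, by omega⟩).1 (by omega)
      simp only at h6
      omega
    · subst h; exact ⟨hc2, hc3⟩
    · -- i < c
      have h5 := hc i hi c hc1 h (by omega)
      by_contra hcon
      have h7 : i + k ≤ x := by omega
      -- `σ (x - c) < k - (c - i)` while `x - c ≥ k - (c - i)`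
      have h8 : (σ ⟨x - c, by omega⟩ : ℕ) < k - (c - i) := by omega
      have h9 := (h5.cut_sub (by omega)).lt_iff ⟨x - c, by omega⟩
      have h10 := h9.1 h8
      simp only at h10
      omega
  have hlt : ∀ x, x < n → F x < n := by
    intro x hx
    by_cases h : ∃ i ∈ M, i ≤ x ∧ x < i + k
    · obtain ⟨i, hi, h1, h2⟩ := h
      have := hFin i hi x h1 h2
      have := hM i hi
      omega
    · rw [hFn x h]; exact hx
  have hinj : Function.Injective fun x : Fin n => (⟨F x, hlt x x.isLt⟩ : Fin n) := by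
    intro x y hxy
    simp only [Fin.mk.injEq] at hxy
    by_cases hx : ∃ i ∈ M, i ≤ (x : ℕ) ∧ (x : ℕ) < i + k
    · obtain ⟨i, hi, h1, h2⟩ := id hx
      have h3 := hFin i hi x h1 h2
      have h4 : i ≤ (y : ℕ) ∧ (y : ℕ) < i + k := by
        by_cases hy : ∃ i ∈ M, i ≤ (y : ℕ) ∧ (y : ℕ) < i + k
        · exact hback i hi y hy (by omega) (by omega)
        · rw [hFn y hy] at hxy; omega
      rw [hFi i hi x h1 h2, hFi i hi y h4.1 h4.2] at hxy
      have h5 := σ.injective (Fin.ext (Nat.add_left_cancel hxy))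
      simp only [Fin.mk.injEq] at h5
      ext; omega
    · by_cases hy : ∃ i ∈ M, i ≤ (y : ℕ) ∧ (y : ℕ) < i + k
      · obtain ⟨i, hi, h1, h2⟩ := id hy
        have h3 := hFin i hi y h1 h2
        rw [hFn x hx] at hxy
        exact absurd ⟨i, hi, by omega, by omega⟩ hx
      · rw [hFn x hx, hFn y hy] at hxy
        exact Fin.ext hxy
  refine ⟨Equiv.ofBijective _ (Finite.injective_iff_bijective.1 hinj), ?_⟩
  intro i hi j h
  show F (i + j) = i + σ j
  rw [hFi i hi (i + j) (by omega) (by omega)]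
  congr 3
  ext; simp

lemma N_le {σ τ : Perm (Fin k)} {M : Finset ℕ} (hM : ∀ i ∈ M, i + k ≤ n)
    (hσ : ∀ i ∈ M, ∀ i' ∈ M, i < i' → i' < i + k → OPlus σ (i' - i))
    (hτ : ∀ i ∈ M, ∀ i' ∈ M, i < i' → i' < i + k → OPlus τ (i' - i)) :
    N σ n M ≤ N τ n M := by
  classical
  obtain ⟨P, hP⟩ := exists_canon σ M hM hσ
  obtain ⟨Q, hQ⟩ := exists_canon τ M hM hτ
  unfold N
  refine Finset.card_le_card_of_injOn (fun π => π * (P⁻¹ * Q)) ?_ ?_
  · intro π hπ
    simp only [Finset.coe_filter, Finset.mem_univ, true_and, Set.mem_ofPred_eq] at hπ ⊢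
    intro i hi
    obtain ⟨d, hd⟩ := hπ i hi
    refine ⟨d, fun j => ?_⟩
    have hin : i + (j : ℕ) < n := by have := hM i hi; omega
    refine ⟨hin, ?_⟩
    -- `x` with `σ x = τ j`
    set x : Fin k := σ.symm (τ j) with hx
    have hσx : σ x = τ j := by simp [hx]
    have hix : i + (x : ℕ) < n := by have := hM i hi; omega
    have h1 : Q ⟨i + (j : ℕ), hin⟩ = P ⟨i + (x : ℕ), hix⟩ := by
      ext
      rw [hQ i hi j hin, hP i hi x hix, hσx]
    have h2 : (π * (P⁻¹ * Q)) ⟨i + (j : ℕ), hin⟩ = π ⟨i + (x : ℕ), hix⟩ := by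
      simp [Perm.mul_apply, h1]
    rw [h2]
    obtain ⟨_, h3⟩ := hd x
    rw [h3, hσx]
  · intro π _ π' _ h
    exact mul_right_cancel h

lemma N_eq_zero {σ : Perm (Fin k)} {M : Finset ℕ}
    (h : ∀ π : Perm (Fin n), (∀ i ∈ M, OccAt σ π i) → False) : N σ n M = 0 := by
  classical
  unfold N
  rw [Finset.card_eq_zero, Finset.filter_eq_empty_iff]
  exact fun π _ hπ => h π hπ

lemma N_pos_rep (σ : Perm (Fin k)) : ∃ σ' : Perm (Fin k), (∀ n M, N σ' n M = N σ n M) ∧
    ∀ p, p ∈ Ov σ ↔ 1 ≤ p ∧ p < k ∧ OPlus σ' p := by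
  obtain ⟨σ', h1 | h1, h2⟩ := exists_pos σ
  · exact ⟨σ', fun n M => by rw [h1], h2⟩
  · exact ⟨σ', fun n M => by rw [h1, N_cpl], h2⟩

lemma ov_add {σ : Perm (Fin k)} {p q : ℕ} (hp : p ∈ Ov σ) (hq : q ∈ Ov σ) (h : p + q < k) :
    p + q ∈ Ov σ := by
  obtain ⟨σ', _, h2⟩ := N_pos_rep σ
  rw [h2] at hp hq ⊢
  exact ⟨by omega, h, hp.2.2.add hq.2.2⟩

lemma N_eq {σ τ : Perm (Fin k)} {M : Finset ℕ} (hM : ∀ i ∈ M, i + k ≤ n)
    (h : ∀ i ∈ M, ∀ i' ∈ M, i < i' → i' < i + k → (i' - i ∈ Ov σ ↔ i' - i ∈ Ov τ)) :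
    N σ n M = N τ n M := by
  by_cases hall : ∀ i ∈ M, ∀ i' ∈ M, i < i' → i' < i + k → i' - i ∈ Ov σ
  · have hall' : ∀ i ∈ M, ∀ i' ∈ M, i < i' → i' < i + k → i' - i ∈ Ov τ :=
      fun i hi i' hi' h1 h2 => (h i hi i' hi' h1 h2).1 (hall i hi i' hi' h1 h2)
    obtain ⟨σ', hN, hσ'⟩ := N_pos_rep σ
    obtain ⟨τ', hN', hτ'⟩ := N_pos_rep τ
    rw [← hN, ← hN']
    have a : ∀ i ∈ M, ∀ i' ∈ M, i < i' → i' < i + k → OPlus σ' (i' - i) :=
      fun i hi i' hi' h1 h2 => ((hσ' _).1 (hall i hi i' hi' h1 h2)).2.2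
    have b : ∀ i ∈ M, ∀ i' ∈ M, i < i' → i' < i + k → OPlus τ' (i' - i) :=
      fun i hi i' hi' h1 h2 => ((hτ' _).1 (hall' i hi i' hi' h1 h2)).2.2
    exact le_antisymm (N_le hM a b) (N_le hM b a)
  · push Not at hall
    obtain ⟨i, hi, i', hi', h1, h2, h3⟩ := hall
    have h4 : i' - i ∉ Ov τ := fun h4 => h3 ((h i hi i' hi' h1 h2).2 h4)
    rw [N_eq_zero fun π hπ => h3 (occ_occ (hπ i hi) (hπ i' hi') h1 h2),
      N_eq_zero fun π hπ => h4 (occ_occ (hπ i hi) (hπ i' hi') h1 h2)]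

lemma N_eq' {σ τ : Perm (Fin k)} {M : Finset ℕ} (hk : 1 ≤ k)
    (h : (∀ i ∈ M, i + k ≤ n) →
      ∀ i ∈ M, ∀ i' ∈ M, i < i' → i' < i + k → (i' - i ∈ Ov σ ↔ i' - i ∈ Ov τ)) :
    N σ n M = N τ n M := by
  by_cases hM : ∀ i ∈ M, i + k ≤ n
  · exact N_eq hM (h hM)
  · push Not at hM
    obtain ⟨i, hi, h1⟩ := hM
    rw [N_eq_zero fun π hπ => by have := (hπ i hi).bound hk; omega,
      N_eq_zero fun π hπ => by have := (hπ i hi).bound hk; omega]

lemma avoid_eq_of_ov_eq (hk : 1 ≤ k) {σ τ : Perm (Fin k)} (h : Ov σ = Ov τ) (n : ℕ) :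
    avoidCount σ n = avoidCount τ n := by
  have : (avoidCount σ n : ℤ) = avoidCount τ n := by
    rw [avoidCount_eq hk, avoidCount_eq hk]
    refine Finset.sum_congr rfl fun M _ => ?_
    rw [N_eq' (σ := σ) (τ := τ) hk fun _ i _ i' _ _ _ => by rw [h]]
  exact_mod_cast this

lemma avoid_ne {σ τ : Perm (Fin k)} {p : ℕ} (hp : p ∈ Ov σ) (hp' : p ∉ Ov τ)
    (hmin : ∀ q, q < p → (q ∈ Ov σ ↔ q ∈ Ov τ)) :
    avoidCount σ (k + p) ≠ avoidCount τ (k + p) := by
  classical
  have hp1 : 1 ≤ p := hp.1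
  have hpk : p < k := hp.2.1
  have hk : 1 ≤ k := by omega
  intro heq
  have h1 : (avoidCount σ (k + p) : ℤ) = avoidCount τ (k + p) := by exact_mod_cast heq
  rw [avoidCount_eq hk, avoidCount_eq hk] at h1
  set M₀ : Finset ℕ := {0, p} with hM₀
  have hmem : M₀ ∈ (Finset.range (k + p)).powerset := by
    rw [Finset.mem_powerset]
    intro x hx
    simp only [hM₀, Finset.mem_insert, Finset.mem_singleton] at hx
    rw [Finset.mem_range]; omega
  rw [← Finset.add_sum_erase _ _ hmem, ← Finset.add_sum_erase _ _ hmem] at h1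
  have hrest : ∑ M ∈ (Finset.range (k + p)).powerset.erase M₀,
      (-1) ^ M.card * (N σ (k + p) M : ℤ) = ∑ M ∈ (Finset.range (k + p)).powerset.erase M₀,
      (-1) ^ M.card * (N τ (k + p) M : ℤ) := by
    refine Finset.sum_congr rfl fun M hM => ?_
    rw [Finset.mem_erase] at hM
    have hne := hM.1
    congr 2
    by_cases h0p : 0 ∈ M ∧ p ∈ M
    · obtain ⟨q, hq, hq0, hqp⟩ : ∃ q ∈ M, q ≠ 0 ∧ q ≠ p := by
        by_contra hcon
        push Not at hcon
        apply hne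
        ext x
        simp only [hM₀, Finset.mem_insert, Finset.mem_singleton]
        constructor
        · intro hx
          by_cases hx0 : x = 0
          · exact Or.inl hx0
          · exact Or.inr (hcon x hx hx0)
        · rintro (rfl | rfl)
          · exact h0p.1
          · exact h0p.2
      rw [N_eq_zero (σ := σ), N_eq_zero (σ := τ)]
      · intro π hπ
        have := occ_occ (hπ 0 h0p.1) (hπ p h0p.2) (by omega) (by omega)
        exact hp' (by simpa using this)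
      · intro π hπ
        have hb := (hπ q hq).bound hk
        have a1 := occ_occ (hπ 0 h0p.1) (hπ q hq) (by omega) (by omega)
        have a2 := occ_occ (hπ q hq) (hπ p h0p.2) (by omega) (by omega)
        rw [Nat.sub_zero] at a1
        have b1 := (hmin q (by omega)).1 a1
        have b2 := (hmin (p - q) (by omega)).1 a2
        have b3 := ov_add b1 b2 (by omega)
        rw [show q + (p - q) = p by omega] at b3
        exact hp' b3
    · refine N_eq' hk fun hbd i hi i' hi' h2 h3 => ?_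
      have h4 := hbd i' hi'
      rcases Nat.eq_or_lt_of_le (show i' - i ≤ p by omega) with h5 | h5
      · exfalso
        apply h0p
        have e0 : i = 0 := by omega
        have ep : i' = p := by omega
        exact ⟨e0 ▸ hi, ep ▸ hi'⟩
      · exact hmin _ h5
  rw [hrest] at h1
  have hcard : M₀.card = 2 := by
    rw [hM₀, Finset.card_pair (by omega)]
  rw [hcard] at h1
  have h2 : N τ (k + p) M₀ = 0 := by
    apply N_eq_zero
    intro π hπ
    have := occ_occ (hπ 0 (by simp [hM₀])) (hπ p (by simp [hM₀])) (by omega) (by omega)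
    exact hp' (by simpa using this)
  have h3 : 0 < N σ (k + p) M₀ := by
    obtain ⟨σ', hN, hσ'⟩ := N_pos_rep σ
    rw [← hN]
    have hMb : ∀ i ∈ M₀, i + k ≤ k + p := by
      intro i hi
      simp only [hM₀, Finset.mem_insert, Finset.mem_singleton] at hi
      omega
    obtain ⟨P, hP⟩ := exists_canon (n := k + p) σ' M₀ hMb (by
        intro i hi i' hi' h1 h2
        simp only [hM₀, Finset.mem_insert, Finset.mem_singleton] at hi hi'
        have e0 : i = 0 := by omega
        have ep : i' = p := by omega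
        rw [e0, ep, Nat.sub_zero]
        exact ((hσ' p).1 hp).2.2)
    unfold N
    rw [Finset.card_pos]
    refine ⟨P, ?_⟩
    simp only [Finset.mem_filter, Finset.mem_univ, true_and]
    intro i hi
    refine ⟨i, fun j => ?_⟩
    have hb := hMb i hi
    refine ⟨by omega, ?_⟩
    rw [hP i hi j (by omega)]
    push_cast; ring
  rw [h2] at h1
  push_cast at h1
  have h4 : (0 : ℤ) < N σ (k + p) M₀ := by exact_mod_cast h3
  nlinarith

theorem wilf_iff (hk : 1 ≤ k) (σ τ : Perm (Fin k)) :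
    (∀ n, avoidCount σ n = avoidCount τ n) ↔ Ov σ = Ov τ := by
  classical
  constructor
  · intro h
    by_contra hne
    have hex : ∃ p, ¬ (p ∈ Ov σ ↔ p ∈ Ov τ) := by
      by_contra hcon
      push Not at hcon
      exact hne (Set.ext hcon)
    have h1 := Nat.find_spec hex
    have h2 : ∀ q, q < Nat.find hex → (q ∈ Ov σ ↔ q ∈ Ov τ) := fun q hq =>
      not_not.1 (Nat.find_min hex hq)
    generalize Nat.find hex = p at h1 h2
    by_cases hp : p ∈ Ov σ
    · have hp' : p ∉ Ov τ := fun h' => h1 ⟨fun _ => h', fun _ => hp⟩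
      exact avoid_ne hp hp' h2 (h _)
    · have hp' : p ∈ Ov τ := by
        by_contra h'
        exact h1 ⟨fun h'' => absurd h'' hp, fun h'' => absurd h'' h'⟩
      exact avoid_ne hp' hp (fun q hq => (h2 q hq).symm) (h _).symm
  · exact fun h n => avoid_eq_of_ov_eq hk h n

end Pool.Agent.H62.Hertz
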