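import Pool.Agent.H62.Hertz.Words

/-!
# Self-overlaps of permutations
-/

open Equiv

namespace Pool.Agent.H62.Hertz

variable {k : ℕ}

/-- `p` is an increasing overlap shift of `σ` -/
def OPlus (σ : Perm (Fin k)) (p : ℕ) : Prop :=
  ∀ (j : ℕ) (h : j + p < k), (σ ⟨j + p, h⟩ : ℕ) = (σ ⟨j, by omega⟩ : ℕ) + p

/-- `p` is a decreasing overlap shift of `σ` -/
def OMinus (σ : Perm (Fin k)) (p : ℕ) : Prop :=
  ∀ (j : ℕ) (h : j + p < k), (σ ⟨j + p, h⟩ : ℕ) + p = (σ ⟨j, by omega⟩ : ℕ)

/-- the set of overlap shifts of `σ` -/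
def Ov (σ : Perm (Fin k)) : Set ℕ := {p | 1 ≤ p ∧ p < k ∧ (OPlus σ p ∨ OMinus σ p)}

/-- the complement -/
def cpl (σ : Perm (Fin k)) : Perm (Fin k) := σ.trans Fin.revPerm

lemma cpl_apply (σ : Perm (Fin k)) (i : Fin k) : (cpl σ i : ℕ) = k - 1 - (σ i : ℕ) := by
  simp only [cpl, Equiv.trans_apply, Fin.revPerm_apply, Fin.val_rev]
  omega

lemma cpl_cpl (σ : Perm (Fin k)) : cpl (cpl σ) = σ := by
  ext i; simp [cpl]

lemma oPlus_cpl {σ : Perm (Fin k)} {p : ℕ} : OPlus (cpl σ) p ↔ OMinus σ p := by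
  constructor
  · intro h j hj
    have := h j hj
    rw [cpl_apply, cpl_apply] at this
    have h1 := (σ ⟨j + p, hj⟩).isLt
    have h2 := (σ ⟨j, by omega⟩).isLt
    omega
  · intro h j hj
    have := h j hj
    rw [cpl_apply, cpl_apply]
    have h1 := (σ ⟨j + p, hj⟩).isLt
    have h2 := (σ ⟨j, by omega⟩).isLt
    omega

lemma oMinus_cpl {σ : Perm (Fin k)} {p : ℕ} : OMinus (cpl σ) p ↔ OPlus σ p := by
  rw [← oPlus_cpl, cpl_cpl]

lemma ov_cpl (σ : Perm (Fin k)) : Ov (cpl σ) = Ov σ := by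
  ext p
  simp only [Ov, Set.mem_ofPred_eq, oPlus_cpl, oMinus_cpl]
  tauto

lemma OPlus.add {σ : Perm (Fin k)} {p q : ℕ} (hp : OPlus σ p) (hq : OPlus σ q) :
    OPlus σ (p + q) := by
  intro j hj
  have h1 := hp (j + q) (by omega)
  have h2 := hq j (by omega)
  have e : (⟨j + (p + q), hj⟩ : Fin k) = ⟨j + q + p, by omega⟩ := by ext; simp; omega
  rw [e, h1, h2]; omega

lemma OPlus.lt {σ : Perm (Fin k)} {p : ℕ} (hp : OPlus σ p) {j : ℕ} (hj : j < k) (h : j + p < k) :
    (σ ⟨j, hj⟩ : ℕ) + p < k := by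
  rw [← hp j h]; exact (σ ⟨j + p, h⟩).isLt

/-- `OPlus` with a positive shift forces the first value to be less than the last. -/
lemma OPlus.first_lt {σ : Perm (Fin k)} (n : ℕ) : ∀ {p : ℕ}, k ≤ p + n → (hp1 : 1 ≤ p) →
    (hpk : p < k) → OPlus σ p → (σ ⟨0, by omega⟩ : ℕ) < (σ ⟨k - 1, by omega⟩ : ℕ) := by
  induction n with
  | zero => intro p h hp1 hpk; omega
  | succ n ih =>
    intro p h hp1 hpk hp
    rcases Nat.lt_or_ge (2 * p) k with h2 | h2
    · have := hp.add hp
      exact ih (p := p + p) (by omega) (by omega) (by omega) this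
    · have h3 := hp.lt (j := 0) (by omega) (by omega)
      have h4 := hp (k - 1 - p) (by omega)
      have e : (⟨k - 1 - p + p, by omega⟩ : Fin k) = ⟨k - 1, by omega⟩ := by ext; simp; omega
      rw [e] at h4
      omega

lemma not_both {σ : Perm (Fin k)} {p q : ℕ} (hp1 : 1 ≤ p) (hpk : p < k) (hp : OPlus σ p)
    (hq1 : 1 ≤ q) (hqk : q < k) (hq : OMinus σ q) : False := by
  have h1 := OPlus.first_lt k (by omega) hp1 hpk hp
  have h2 := OPlus.first_lt k (by omega) hq1 hqk (oPlus_cpl.2 hq)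
  rw [cpl_apply, cpl_apply] at h2
  omega

/-- Each permutation or its complement has only increasing overlaps. -/
lemma exists_pos (σ : Perm (Fin k)) : ∃ τ : Perm (Fin k), (τ = σ ∨ τ = cpl σ) ∧
    ∀ p, p ∈ Ov σ ↔ 1 ≤ p ∧ p < k ∧ OPlus τ p := by
  by_cases h : ∃ q, 1 ≤ q ∧ q < k ∧ OMinus σ q
  · obtain ⟨q, hq1, hqk, hq⟩ := h
    refine ⟨cpl σ, Or.inr rfl, fun p => ?_⟩
    simp only [Ov, Set.mem_ofPred_eq, oPlus_cpl]
    constructor
    · rintro ⟨h1, h2, h3 | h3⟩
      · exact (not_both h1 h2 h3 hq1 hqk hq).elim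
      · exact ⟨h1, h2, h3⟩
    · rintro ⟨h1, h2, h3⟩
      exact ⟨h1, h2, Or.inr h3⟩
  · refine ⟨σ, Or.inl rfl, fun p => ?_⟩
    simp only [Ov, Set.mem_ofPred_eq]
    constructor
    · rintro ⟨h1, h2, h3 | h3⟩
      · exact ⟨h1, h2, h3⟩
      · exact (h ⟨p, h1, h2, h3⟩).elim
    · rintro ⟨h1, h2, h3⟩
      exact ⟨h1, h2, Or.inl h3⟩

lemma inv_lt {σ : Perm (Fin k)} {c : ℕ} (h : ∀ i : Fin k, (i : ℕ) < c → (σ i : ℕ) < c) (i : Fin k)
    (hi : (σ i : ℕ) < c) : (i : ℕ) < c := by
  have := Perm.perm_symm_on_of_perm_on_finite (f := σ) (p := fun i : Fin k => (i : ℕ) < c)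
    (fun x hx => h x hx) hi
  simpa using this

lemma inv_ge {σ : Perm (Fin k)} {c : ℕ} (h : ∀ i : Fin k, c ≤ (i : ℕ) → c ≤ (σ i : ℕ)) (i : Fin k)
    (hi : c ≤ (σ i : ℕ)) : c ≤ (i : ℕ) := by
  have := Perm.perm_symm_on_of_perm_on_finite (f := σ) (p := fun i : Fin k => c ≤ (i : ℕ))
    (fun x hx => h x hx) hi
  simpa using this

lemma OPlus.ge_iff {σ : Perm (Fin k)} {p : ℕ} (hp : OPlus σ p) (i : Fin k) :
    p ≤ (σ i : ℕ) ↔ p ≤ (i : ℕ) := by
  have h : ∀ i : Fin k, p ≤ (i : ℕ) → p ≤ (σ i : ℕ) := by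
    intro i hi
    have h1 := hp (i - p) (by omega)
    have e : (⟨i - p + p, by omega⟩ : Fin k) = i := by ext; simp; omega
    rw [e] at h1
    omega
  exact ⟨inv_ge h i, h i⟩

/-- `c` is a cut of `σ` -/
def Cut (σ : Perm (Fin k)) (c : ℕ) : Prop := ∀ i : Fin k, (i : ℕ) < c → (σ i : ℕ) < c

lemma Cut.lt_iff {σ : Perm (Fin k)} {c : ℕ} (h : Cut σ c) (i : Fin k) :
    (σ i : ℕ) < c ↔ (i : ℕ) < c := ⟨inv_lt h i, h i⟩

open Classical in
/-- the cut word -/
noncomputable def cutWord (σ : Perm (Fin k)) (c : ℕ) : Option ℤ :=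
  if Cut σ c then none else if h : c < k then some ((σ ⟨c, h⟩ : ℤ) - c) else none

lemma cutWord_eq_none {σ : Perm (Fin k)} {c : ℕ} (hc : c ≤ k) : cutWord σ c = none ↔ Cut σ c := by
  unfold cutWord
  split_ifs with h h'
  · simp [h]
  · simp [h]
  · have : c = k := by omega
    subst this
    exact absurd (fun i _ => (σ i).isLt) h

lemma cutWord_of_not {σ : Perm (Fin k)} {c : ℕ} (h : ¬ Cut σ c) (hc : c < k) :
    cutWord σ c = some ((σ ⟨c, hc⟩ : ℤ) - c) := by
  simp [cutWord, h, hc]

lemma cut_zero (σ : Perm (Fin k)) : Cut σ 0 := fun i h => by omega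

lemma cut_k (σ : Perm (Fin k)) : Cut σ k := fun i _ => (σ i).isLt

lemma OPlus.cut_sub {σ : Perm (Fin k)} {p : ℕ} (hp : OPlus σ p) (hpk : p < k) :
    Cut σ (k - p) := by
  intro i hi
  have : (σ i : ℕ) + p < k := hp.lt (j := i) i.isLt (by omega)
  omega

lemma OPlus.cut_add {σ : Perm (Fin k)} {p c : ℕ} (hp : OPlus σ p) (hc : c + p ≤ k) :
    Cut σ (c + p) ↔ Cut σ c := by
  constructor
  · intro h i hi
    have h1 := h ⟨i + p, by omega⟩ (by simp; omega)
    rw [hp i (by omega)] at h1
    have h2 : (σ i : ℕ) + p < c + p := h1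
    omega
  · intro h i hi
    rcases Nat.lt_or_ge i p with h1 | h1
    · have : (σ i : ℕ) < p := by
        by_contra hcon
        have := (hp.ge_iff i).1 (not_lt.1 hcon)
        omega
      omega
    · have h2 := hp (i - p) (by omega)
      have e : (⟨i - p + p, by omega⟩ : Fin k) = i := by ext; simp; omega
      rw [e] at h2
      have h3 := h ⟨i - p, by omega⟩ (by simp; omega)
      omega

/-- Periods of the cut word. -/
theorem per_cutWord {σ : Perm (Fin k)} {p : ℕ} (hp1 : 1 ≤ p) (hpk : p < k) :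
    Per (k + 1) (cutWord σ) p ↔ OPlus σ p := by
  constructor
  · intro h
    have hcut : ∀ c, c + p ≤ k → (Cut σ (c + p) ↔ Cut σ c) := by
      intro c hc
      rw [← cutWord_eq_none (by omega : c ≤ k), ← cutWord_eq_none (by omega : c + p ≤ k),
        h c (by omega)]
    have hcp : Cut σ (k - p) := by
      rw [← hcut (k - p) (by omega)]
      have e : k - p + p = k := by omega
      rw [e]; exact cut_k σ
    have hnot : ∀ (j : ℕ) (hj : j + p < k), ¬ Cut σ j →
        (σ ⟨j + p, hj⟩ : ℕ) = (σ ⟨j, by omega⟩ : ℕ) + p := by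
      intro j hj hc
      have h1 := h j (by omega)
      rw [cutWord_of_not hc (by omega), cutWord_of_not (fun h' => hc ((hcut j (by omega)).1 h'))
        hj] at h1
      simp only [Option.some.injEq] at h1
      push_cast at h1
      omega
    intro j hj
    by_cases hc : Cut σ j
    · -- next cut
      have hex : ∃ c, j < c ∧ Cut σ c := ⟨k - p, by omega, hcp⟩
      classical
      obtain ⟨hjc, hcc⟩ := Nat.find_spec hex
      have hcmin : ∀ c, j < c → c < Nat.find hex → ¬ Cut σ c := fun c h1 h2 h3 =>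
        Nat.find_min hex h2 ⟨h1, h3⟩
      have hck : Nat.find hex ≤ k - p := Nat.find_min' hex ⟨by omega, hcp⟩
      generalize Nat.find hex = c at hjc hcc hcmin hck
      have hc' : Cut σ (j + p) := (hcut j (by omega)).2 hc
      have hcc' : Cut σ (c + p) := (hcut c (by omega)).2 hcc
      have h1 : j + p ≤ (σ ⟨j + p, hj⟩ : ℕ) := by
        by_contra hcon
        have := (hc'.lt_iff _).1 (not_le.1 hcon)
        simp at this
      have h2 : (σ ⟨j + p, hj⟩ : ℕ) < c + p := (hcc'.lt_iff _).2 (by simp; omega)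
      -- the preimage of the shifted value
      set v : Fin k := ⟨(σ ⟨j + p, hj⟩ : ℕ) - p, by omega⟩ with hv
      obtain ⟨i, hi⟩ : ∃ i, σ i = v := ⟨σ.symm v, by simp⟩
      have hiv : (σ i : ℕ) = (σ ⟨j + p, hj⟩ : ℕ) - p := by rw [hi, hv]
      have h3 : (i : ℕ) < c := (hcc.lt_iff i).1 (by omega)
      have h4 : j ≤ (i : ℕ) := by
        by_contra hcon
        have := (hc.lt_iff i).2 (not_le.1 hcon)
        omega
      rcases Nat.eq_or_lt_of_le h4 with h5 | h5
      · have e : i = ⟨j, by omega⟩ := by ext; exact h5.symm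
        rw [e] at hiv
        omega
      · have h6 := hnot i (by omega) (hcmin i h5 h3)
        have e : (⟨(i : ℕ), by omega⟩ : Fin k) = i := rfl
        rw [e] at h6
        have h7 : σ ⟨i + p, by omega⟩ = σ ⟨j + p, hj⟩ := by ext; omega
        have h8 := σ.injective h7
        simp only [Fin.mk.injEq] at h8
        omega
    · exact hnot j hj hc
  · intro hp c hc
    by_cases h : Cut σ c
    · have h' : Cut σ (c + p) := (hp.cut_add (by omega)).2 h
      rw [(cutWord_eq_none (by omega)).2 h, (cutWord_eq_none (by omega)).2 h']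
    · have h' : ¬ Cut σ (c + p) := fun h' => h ((hp.cut_add (by omega)).1 h')
      have hck : c < k - p := by
        rcases Nat.lt_or_ge c (k - p) with h1 | h1
        · exact h1
        · have : c = k - p := by omega
          subst this
          exact absurd (hp.cut_sub hpk) h
      rw [cutWord_of_not h (by omega), cutWord_of_not h' (by omega), hp c (by omega)]
      push_cast; congr 1; ring

/-- the permutation attached to a word -/
lemma exists_perm (w : ℕ → Bool) (hw0 : w 0 = true) (hwk : w k = true) :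
    ∃ σ : Perm (Fin k), ∀ p, 1 ≤ p → p < k → (OPlus σ p ↔ Per (k + 1) w p) := by
  set last : ℕ → ℕ := fun j => Nat.findGreatest (fun c => w c = true) j with hlast
  have hlast_le : ∀ j, last j ≤ j := fun j => Nat.findGreatest_le j
  have hlast_w : ∀ j, w (last j) = true := fun j =>
    Nat.findGreatest_spec (P := fun c => w c = true) (Nat.zero_le j) hw0
  have hle_last : ∀ {c j}, c ≤ j → w c = true → c ≤ last j := fun h1 h2 =>
    Nat.le_findGreatest h1 h2
  set s : ℕ → ℕ := fun j => if w (j + 1) = false then j + 1 else last j with hs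
  have hs1 : ∀ {j}, w (j + 1) = false → s j = j + 1 := fun h => by simp [hs, h]
  have hs2 : ∀ {j}, w (j + 1) = true → s j = last j := fun h => by simp [hs, h]
  have hsk : ∀ j, j < k → s j < k := by
    intro j hj
    cases h : w (j + 1)
    · rw [hs1 h]
      rcases Nat.eq_or_lt_of_le (Nat.succ_le_of_lt hj) with h1 | h1
      · rw [Nat.succ_eq_add_one] at h1
        rw [h1, hwk] at h; exact absurd h (by simp)
      · exact h1
    · rw [hs2 h]; exact (hlast_le j).trans_lt hj
  have hlt : ∀ {i j}, i < j → s i ≠ s j := by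
    intro i j hij
    cases hi : w (i + 1) <;> cases hj : w (j + 1)
    · rw [hs1 hi, hs1 hj]; omega
    · rw [hs1 hi, hs2 hj]
      intro h
      rw [h, hlast_w] at hi
      exact absurd hi (by simp)
    · rw [hs2 hi, hs1 hj]
      have := hlast_le i
      omega
    · rw [hs2 hi, hs2 hj]
      have h1 := hlast_le i
      have h2 : i + 1 ≤ last j := hle_last hij hi
      omega
  have hinj : Function.Injective fun i : Fin k => (⟨s i, hsk i i.isLt⟩ : Fin k) := by
    intro i j h
    simp only [Fin.mk.injEq] at h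
    rcases lt_trichotomy (i : ℕ) (j : ℕ) with h1 | h1 | h1
    · exact absurd h (hlt h1)
    · exact Fin.ext h1
    · exact absurd h.symm (hlt h1)
  refine ⟨Equiv.ofBijective _ (Finite.injective_iff_bijective.1 hinj), ?_⟩
  intro p hp1 hpk
  have happ : ∀ i : Fin k, ((Equiv.ofBijective _ (Finite.injective_iff_bijective.1 hinj) i : Fin k)
      : ℕ) = s i := fun i => rfl
  constructor
  · intro h c hc
    rcases Nat.eq_zero_or_pos c with rfl | hc0
    · have h1 : ∀ i : Fin k, p ≤ s i ↔ p ≤ (i : ℕ) := fun i => by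
        have := h.ge_iff i
        rwa [happ] at this
      have h2 := (h1 ⟨p - 1, by omega⟩).not
      have h3 : ¬ p ≤ s (p - 1) := h2.2 (by simp; omega)
      rw [hw0, zero_add]
      cases hwp : w p
      · have : s (p - 1) = p - 1 + 1 := hs1 (by rw [Nat.sub_add_cancel hp1]; exact hwp)
        omega
      · rfl
    · obtain ⟨j, rfl⟩ : ∃ j, c = j + 1 := ⟨c - 1, by omega⟩
      have h1 := h j (by omega)
      rw [happ, happ] at h1
      simp only at h1
      have hl1 := hlast_le j
      have hl2 := hlast_le (j + p)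
      have e : j + 1 + p = j + p + 1 := by omega
      rw [e]
      cases h2 : w (j + 1) <;> cases h3 : w (j + p + 1)
      · rfl
      · rw [hs1 h2, hs2 h3] at h1; omega
      · rw [hs2 h2, hs1 h3] at h1; omega
      · rfl
  · intro h j hj
    rw [happ, happ]
    simp only
    have h1 : w (j + 1) = w (j + p + 1) := by
      rw [h (j + 1) (by omega)]; congr 1; omega
    cases h2 : w (j + 1)
    · rw [hs1 h2, hs1 (h1 ▸ h2)]; omega
    · rw [hs2 h2, hs2 (h1 ▸ h2)]
      refine le_antisymm ?_ ?_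
      · -- last (j+p) ≤ last j + p
        by_contra hcon
        push Not at hcon
        have h3 := hlast_w (j + p)
        have h4 := hlast_le (j + p)
        have h5 := h (last (j + p) - p) (by omega)
        rw [show last (j + p) - p + p = last (j + p) by omega, h3] at h5
        have := hle_last (c := last (j + p) - p) (j := j) (by omega) h5
        omega
      · refine hle_last (by have := hlast_le j; omega) ?_
        rw [← h (last j) (by have := hlast_le j; omega)]
        exact hlast_w j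

/-- a permutation without overlaps -/
lemma exists_ov_empty (hk : 3 ≤ k) : ∃ σ : Perm (Fin k), Ov σ = ∅ := by
  refine ⟨Equiv.swap ⟨k - 2, by omega⟩ ⟨k - 1, by omega⟩, ?_⟩
  ext p
  simp only [Ov, Set.mem_ofPred_eq, Set.mem_empty_iff_false, iff_false]
  have hfix : ∀ (j : ℕ) (h : j < k - 2),
      (Equiv.swap (⟨k - 2, by omega⟩ : Fin k) ⟨k - 1, by omega⟩) ⟨j, by omega⟩ = ⟨j, by omega⟩ := by
    intro j h
    apply Equiv.swap_apply_of_ne_of_ne <;> simp [Fin.ext_iff] <;> omega
  rintro ⟨hp1, hpk, h | h⟩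
  · rcases Nat.eq_or_lt_of_le hp1 with rfl | hp2
    · have h1 := h (k - 2) (by omega)
      have e : (⟨k - 2 + 1, by omega⟩ : Fin k) = ⟨k - 1, by omega⟩ := by ext; simp; omega
      rw [e, Equiv.swap_apply_right, Equiv.swap_apply_left] at h1
      simp at h1; omega
    · have h1 := h (k - 1 - p) (by omega)
      have e : (⟨k - 1 - p + p, by omega⟩ : Fin k) = ⟨k - 1, by omega⟩ := by ext; simp; omega
      rw [e, Equiv.swap_apply_right, hfix _ (by omega)] at h1
      simp at h1; omega
  · have h1 := h 0 (by omega)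
    rw [hfix 0 (by omega)] at h1
    simp at h1
    omega

end Pool.Agent.H62.Hertz
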