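import Mathlib

/-!
# Periods of words

A word of length `n` over an alphabet `α` is represented by a function `ℕ → α`, of which only the
values at `0, ..., n - 1` matter. We prove: for each word `u` of length `n` whose first and last
letters agree, there is a binary palindrome of length `n` with the same periods.
-/

namespace Pool.Agent.H62.Hertz

variable {α : Type*}

/-- `p` is a period of the word `u` of length `n` -/
def Per (n : ℕ) (u : ℕ → α) (p : ℕ) : Prop := ∀ i, i + p < n → u i = u (i + p)

lemma Per.mono {n m : ℕ} {u : ℕ → α} {p : ℕ} (h : Per n u p) (hmn : m ≤ n) : Per m u p :=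
  fun i hi => h i (hi.trans_le hmn)

lemma Per.mul {n : ℕ} {u : ℕ → α} {p : ℕ} (h : Per n u p) : ∀ t : ℕ, Per n u (t * p)
  | 0 => fun i _ => by simp
  | t + 1 => fun i hi => by
      rw [Nat.succ_mul, ← add_assoc] at hi
      rw [Nat.succ_mul, ← add_assoc, ← h (i + t * p) hi]
      exact Per.mul h t i (by omega)

lemma Per.of_dvd {n : ℕ} {u : ℕ → α} {p q : ℕ} (h : Per n u p) (hpq : p ∣ q) : Per n u q := by
  obtain ⟨t, rfl⟩ := hpq
  rw [mul_comm]
  exact h.mul t

lemma Per.mod {n : ℕ} {u : ℕ → α} {p : ℕ} (h : Per n u p) {i : ℕ} (hi : i < n) :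
    u (i % p) = u i := by
  have h1 := (h.mul (i / p)) (i % p) (by rw [Nat.mul_comm, Nat.mod_add_div]; exact hi)
  rw [h1, Nat.mul_comm, Nat.mod_add_div]

lemma hasPeriod_iff {n : ℕ} {u : ℕ → α} {p : ℕ} :
    List.HasPeriod ((List.range n).map u) p ↔ Per n u p := by
  rw [List.hasPeriod_iff_getElem?]
  simp only [List.length_map, List.length_range, List.getElem?_map, Per]
  constructor
  · intro h i hi
    have := h i (by omega)
    rw [List.getElem?_range (by omega), List.getElem?_range (by omega)] at this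
    simpa using this
  · intro h i hi
    rw [List.getElem?_range (by omega), List.getElem?_range (by omega)]
    simpa using h i (by omega)

/-- Fine and Wilf -/
lemma Per.gcd {n : ℕ} {u : ℕ → α} {p q : ℕ} (hp : Per n u p) (hq : Per n u q)
    (hn : p + q - p.gcd q ≤ n) : Per n u (p.gcd q) := by
  rw [← hasPeriod_iff] at hp hq ⊢
  exact hp.gcd hq (by simpa using hn)

/-- palindrome -/
def Pal (n : ℕ) (w : ℕ → α) : Prop := ∀ i, i < n → w i = w (n - 1 - i)

/-- If `p` is a period, `g` divides `p`, and the prefix of length `p` has period `g`, then `g` is a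
period. -/
lemma Per.of_pre {n : ℕ} {u : ℕ → α} {p g : ℕ} (hp : Per n u p) (hp0 : 0 < p) (hg : g ∣ p)
    (h : Per p u g) : Per n u g := by
  intro i hi
  have hg0 : 0 < g := Nat.pos_of_dvd_of_pos hg hp0
  have key : ∀ j, j < n → u j = u (j % g) := by
    intro j hj
    rw [← hp.mod hj, ← h.mod (Nat.mod_lt j hp0), Nat.mod_mod_of_dvd _ hg]
  rw [key i (by omega), key (i + g) hi, Nat.add_mod_right]

/-- description of the periods of a word whose smallest period is at most half its length -/
lemma per_desc {n p s t : ℕ} {v : ℕ → α} (hp0 : 0 < p) (hn : n = t * p + s) (ht : 2 ≤ t)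
    (hv : Per n v p) (hvmin : ∀ q, 1 ≤ q → q < p → ¬ Per n v q) (q : ℕ) (hq1 : 1 ≤ q) : (Per n v q ↔ (q + p ≤ n ∧ p ∣ q) ∨
        (n < q + p ∧ Per (p + s) v (q - (t - 1) * p))) := by
  have ht1 : (t - 1) * p + p = t * p := by
    conv_rhs => rw [show t = (t - 1) + 1 by omega]
    ring
  rcases Nat.lt_or_ge n (q + p) with hlt | hge
  · have e : Per n v q ↔ Per (p + s) v (q - (t - 1) * p) := by
      have hq' : q - (t - 1) * p + (t - 1) * p = q := by omega
      constructor
      · intro h i hi
        have h3 := h i (by omega)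
        rw [h3]
        have h4 := (hv.mul (t - 1)) (i + (q - (t - 1) * p)) (by omega)
        rw [h4]
        congr 1; omega
      · intro h i hi
        have h3 := h i (by omega)
        rw [h3]
        have h4 := (hv.mul (t - 1)) (i + (q - (t - 1) * p)) (by omega)
        rw [h4]
        congr 1; omega
    rw [e]
    constructor
    · intro h; exact Or.inr ⟨hlt, h⟩
    · rintro (⟨h, _⟩ | ⟨_, h⟩)
      · omega
      · exact h
  · constructor
    · intro h
      refine Or.inl ⟨hge, ?_⟩
      have hg := h.gcd hv (by omega)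
      have hg1 : 1 ≤ q.gcd p := Nat.gcd_pos_of_pos_left p hq1
      have hgp : q.gcd p ≤ p := Nat.gcd_le_right q hp0
      rcases Nat.lt_or_ge (q.gcd p) p with h5 | h5
      · exact absurd hg (hvmin _ hg1 h5)
      · have : q.gcd p = p := le_antisymm hgp h5
        exact this ▸ Nat.gcd_dvd_left q p
    · rintro (⟨_, h⟩ | ⟨h, _⟩)
      · exact hv.of_dvd h
      · omega

/-- Case `2 p ≤ n` of the recursion: extension by periodicity. -/
lemma ext_case {n p s t : ℕ} {β : Type*} {u : ℕ → α} {w : ℕ → β} (hp0 : 0 < p)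
    (hn : n = t * p + s) (hs : s < p) (ht : 2 ≤ t)
    (hu : Per n u p) (hmin : ∀ q, 1 ≤ q → q < p → ¬ Per n u q)
    (hw : ∀ q, 1 ≤ q → q < p + s → (Per (p + s) w q ↔ Per (p + s) u q)) :
    (∀ i, i < p + s → w (i % p) = w i) ∧
    ∀ q, 1 ≤ q → q < n → (Per n (fun i => w (i % p)) q ↔ Per n u q) := by
  have h2p : 2 * p + s ≤ n := by
    rw [hn]; exact Nat.add_le_add_right (Nat.mul_le_mul_right p ht) s
  set w' : ℕ → β := fun i => w (i % p) with hw'
  have hw'p : Per n w' p := fun i _ => by simp [hw']
  have hwp : Per (p + s) w p := by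
    rcases Nat.eq_zero_or_pos s with rfl | hs0
    · intro i hi; omega
    · exact (hw p hp0 (by omega)).2 (hu.mono (by omega))
  have hww' : ∀ i, i < p + s → w' i = w i := fun i hi => hwp.mod hi
  refine ⟨hww', ?_⟩
  have hup : Per (p + s) u p := hu.mono (by omega)
  -- minimality for `w'`
  have hmin' : ∀ q, 1 ≤ q → q < p → ¬ Per n w' q := by
    intro q hq1 hqp hq
    have hg := hq.gcd hw'p (by omega)
    set g := q.gcd p with hgdef
    have hg1 : 1 ≤ g := Nat.gcd_pos_of_pos_left p hq1
    have hgp : g ∣ p := Nat.gcd_dvd_right q p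
    have hgq : g ≤ q := Nat.gcd_le_left p hq1
    have h1 : Per (p + s) w g := by
      intro i hi
      rw [← hww' i (by omega), ← hww' (i + g) hi]
      exact hg i (by omega)
    have h2 : Per (p + s) u g := (hw g hg1 (by omega)).1 h1
    exact hmin g hg1 (by omega) (hu.of_pre hp0 hgp (h2.mono (by omega)))
  intro q hq1 hqn
  rw [per_desc hp0 hn ht hw'p hmin' q hq1, per_desc hp0 hn ht hu hmin q hq1]
  have ht1 : (t - 1) * p + p = t * p := by
    conv_rhs => rw [show t = (t - 1) + 1 by omega]
    ring
  refine or_congr Iff.rfl (and_congr_right fun hlt => ?_)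
  rw [← hw (q - (t - 1) * p) (by omega) (by omega)]
  constructor
  · intro h i hi
    have := h i hi
    rwa [hww' _ (by omega), hww' _ (by omega)] at this
  · intro h i hi
    rw [hww' _ (by omega), hww' _ (by omega)]
    exact h i hi

/-- The periodic extension of a palindrome is a palindrome. -/
lemma ext_pal {n p s t : ℕ} {w : ℕ → α} (hp0 : 0 < p)
    (hn : n = t * p + s) (hs : s < p) (hww' : ∀ i, i < p + s → w (i % p) = w i)
    (hw : Pal (p + s) w) : Pal n (fun i => w (i % p)) := by
  intro i hi
  show w (i % p) = w ((n - 1 - i) % p)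
  have h1 : i % p < p := Nat.mod_lt i hp0
  rw [hw (i % p) (by omega), ← hww' _ (by omega)]
  congr 1
  -- both sides are congruent to `s - 1 - i`
  have e1 : p + s - 1 - i % p + i % p = p + s - 1 := by omega
  have e2 : n - 1 - i + i = n - 1 := by omega
  have h3 : (p + s - 1 - i % p + i % p) % p = (n - 1 - i + i % p) % p := by
    rw [e1, Nat.add_mod_mod, e2, hn]
    rcases Nat.eq_zero_or_pos s with rfl | hs0
    · have ht : 0 < t := by
        rcases Nat.eq_zero_or_pos t with rfl | h
        · simp at hn; omega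
        · exact h
      obtain ⟨t', rfl⟩ : ∃ t', t = t' + 1 := ⟨t - 1, by omega⟩
      rw [show (t' + 1) * p + 0 - 1 = (p - 1) + p * t' by
        have : 1 ≤ p := hp0
        have h : (t' + 1) * p = p + p * t' := by ring
        omega, Nat.add_mul_mod_self_left]
      congr 1
    · rw [show t * p + s - 1 = (s - 1) + p * t by
        have h : t * p = p * t := by ring
        omega, Nat.add_mul_mod_self_left]
      rw [show p + s - 1 = (s - 1) + p by omega, Nat.add_mod_right]
  exact Nat.ModEq.add_right_cancel' (i % p) h3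

/-- the word `W c^l W` -/
def sand (m l : ℕ) (c : Bool) (W : ℕ → Bool) (i : ℕ) : Bool :=
  if i < m then W i else if i < m + l then c else W (i - (m + l))

lemma sand_lt {m l : ℕ} {c : Bool} {W : ℕ → Bool} {i : ℕ} (h : i < m) : sand m l c W i = W i := by
  simp [sand, h]

lemma sand_mid {m l : ℕ} {c : Bool} {W : ℕ → Bool} {i : ℕ} (h : m ≤ i) (h' : i < m + l) :
    sand m l c W i = c := by
  simp [sand, not_lt.2 h, h']

lemma sand_ge {m l : ℕ} {c : Bool} {W : ℕ → Bool} {i : ℕ} (h : m + l ≤ i) :
    sand m l c W i = W (i - (m + l)) := by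
  simp [sand, not_lt.2 h, not_lt.2 (le_trans (Nat.le_add_right m l) h)]

lemma sand_pal {m l : ℕ} {c : Bool} {W : ℕ → Bool} (hW : Pal m W) :
    Pal (2 * m + l) (sand m l c W) := by
  intro i hi
  rcases Nat.lt_or_ge i m with h | h
  · rw [sand_lt h, sand_ge (by omega), hW i h]
    congr 1; omega
  · rcases Nat.lt_or_ge i (m + l) with h' | h'
    · rw [sand_mid h h', sand_mid (by omega) (by omega)]
    · rw [sand_ge h', sand_lt (by omega), hW (i - (m + l)) (by omega)]
      congr 1; omega

lemma sand_per {m l : ℕ} {c : Bool} {W : ℕ → Bool} :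
    Per (2 * m + l) (sand m l c W) (m + l) := by
  intro i hi
  rw [sand_lt (by omega), sand_ge (by omega)]
  congr 1; omega

/-- A small period of `W c^l W` gives a period dividing `m + l`, or `c = 1` and `W` is constant. -/
lemma sand_small {m l : ℕ} {c : Bool} {W : ℕ → Bool} (hm : 1 ≤ m) (hW0 : W 0 = true)
    {q : ℕ} (hq1 : 1 ≤ q) (hq : q < m + l) (h : Per (2 * m + l) (sand m l c W) q) :
    (∃ g, 1 ≤ g ∧ g < m + l ∧ g ∣ m + l ∧ Per (2 * m + l) (sand m l c W) g) ∨
      (c = true ∧ ∀ i, i < m → W i = true) := by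
  rcases Nat.lt_or_ge m q with hmq | hmq
  · right
    have h1 : ∀ i, i < m + l - q → sand m l c W i = c := by
      intro i hi
      rw [h i (by omega), sand_mid (by omega) (by omega)]
    have hc : c = true := by
      have := h1 0 (by omega)
      rw [sand_lt hm, hW0] at this
      exact this.symm
    refine ⟨hc, ?_⟩
    intro i
    induction i using Nat.strong_induction_on with
    | _ i ih =>
      intro hi
      rcases Nat.lt_or_ge i (m + l - q) with hi' | hi'
      · have := h1 i hi'
        rw [sand_lt hi, hc] at this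
        exact this
      · have h2 := h i (by omega)
        rw [sand_lt hi, sand_ge (by omega)] at h2
        rw [h2]
        exact ih _ (by omega) (by omega)
  · left
    have hg := h.gcd sand_per (by
      have := Nat.gcd_pos_of_pos_left (m + l) hq1
      omega)
    have h1 : q.gcd (m + l) ≤ q := Nat.gcd_le_left _ hq1
    exact ⟨q.gcd (m + l), Nat.gcd_pos_of_pos_left _ hq1, by omega, Nat.gcd_dvd_right _ _, hg⟩

lemma arith {p g h l : ℕ} (hg0 : 1 ≤ g) (hh0 : 1 ≤ h) (hgp : g ∣ p) (hhp : h ∣ p) (hg : g < p)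
    (hh : h < p) (hlg : l < g) (hlh : l < h) (hgh : g ≤ h) : g + h - g.gcd h ≤ p - l := by
  obtain ⟨a, ha⟩ := hgp
  obtain ⟨b, hb⟩ := hhp
  have ha2 : 2 ≤ a := by
    rcases Nat.lt_or_ge a 2 with h1 | h1
    · interval_cases a <;> omega
    · exact h1
  have hb2 : 2 ≤ b := by
    rcases Nat.lt_or_ge b 2 with h1 | h1
    · interval_cases b <;> omega
    · exact h1
  have hp2g : g * 2 ≤ p := ha ▸ Nat.mul_le_mul_left g ha2
  rcases Nat.eq_or_lt_of_le hgh with rfl | hlt
  · rw [Nat.gcd_self]; omega
  have hab : b < a := by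
    by_contra hcon
    have h1 : g * a ≤ g * b := Nat.mul_le_mul_left g (not_lt.1 hcon)
    have h2 : g * b < h * b := Nat.mul_lt_mul_of_pos_right hlt (by omega)
    omega
  have hd : 1 ≤ g.gcd h := Nat.gcd_pos_of_pos_left h hg0
  rcases Nat.eq_or_lt_of_le hb2 with hb3 | hb3
  · rcases Nat.lt_or_ge a 4 with ha4 | ha4
    · have ha3 : a = 3 := by omega
      subst ha3
      rw [← hb3] at hb
      obtain ⟨x, hx⟩ : ∃ x, g = 2 * x := ⟨h - g, by omega⟩
      have hx' : h = 3 * x := by omega
      have : g.gcd h = x := by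
        rw [hx, hx', Nat.gcd_mul_right]; norm_num
      omega
    · have h4 : g * 4 ≤ p := ha ▸ Nat.mul_le_mul_left g ha4
      rw [← hb3] at hb
      omega
  · have h3 : h * 3 ≤ p := hb ▸ Nat.mul_le_mul_left h hb3
    have h4 : g * 4 ≤ p := ha ▸ Nat.mul_le_mul_left g (by omega)
    omega

lemma arith' {p g h l : ℕ} (hg0 : 1 ≤ g) (hh0 : 1 ≤ h) (hgp : g ∣ p) (hhp : h ∣ p) (hg : g < p)
    (hh : h < p) (hlg : l < g) (hlh : l < h) : g + h - g.gcd h ≤ p - l := by
  rcases le_total g h with h1 | h1
  · exact arith hg0 hh0 hgp hhp hg hh hlg hlh h1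
  · rw [Nat.gcd_comm, add_comm]
    exact arith hh0 hg0 hhp hgp hh hg hlh hlg h1

/-- the value just before a multiple of the period -/
lemma Per.pred {n : ℕ} {u : ℕ → α} {g p : ℕ} (h : Per n u g) (hg : g ∣ p) (hg0 : 1 ≤ g)
    (hp : 1 ≤ p) (hpn : p ≤ n) : u (g - 1) = u (p - 1) := by
  have hgp : g ≤ p := Nat.le_of_dvd hp hg
  have h1 : Per n u (p - g) := h.of_dvd (Nat.dvd_sub hg (dvd_refl g))
  have := h1 (g - 1) (by omega)
  rw [this]; congr 1; omega

lemma sandwich {m l : ℕ} {W : ℕ → Bool} (hm : 1 ≤ m) (hl : 1 ≤ l) (hW0 : W 0 = true) :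
    ∃ c : Bool, ∀ q, 1 ≤ q → q < m + l → ¬ Per (2 * m + l) (sand m l c W) q := by
  by_contra hcon
  push Not at hcon
  by_cases hW : ∀ i, i < m → W i = true
  · -- `W` constant
    obtain ⟨q, hq1, hq, hper⟩ := hcon false
    rcases sand_small hm hW0 hq1 hq hper with ⟨g, hg1, hgp, hgd, hg⟩ | ⟨h, _⟩
    · have h1 := hg.pred hgd hg1 (by omega) (by omega : m + l ≤ 2 * m + l)
      rw [sand_mid (by omega : m ≤ m + l - 1) (by omega)] at h1
      have hgm : m ≤ g - 1 := by
        by_contra hlt
        rw [sand_lt (by omega), hW _ (by omega)] at h1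
        exact absurd h1 (by simp)
      have h2 : g ∣ m + l - g := Nat.dvd_sub hgd (dvd_refl g)
      have h3 : g ≤ m + l - g := Nat.le_of_dvd (by omega) h2
      have h4 := (hg.of_dvd h2) 0 (by omega)
      rw [sand_lt hm, sand_mid (by omega) (by omega), hW0] at h4
      exact absurd h4 (by simp)
    · exact absurd h (by simp)
  · -- `W` contains `0`
    obtain ⟨q, hq1, hq, hper⟩ := hcon false
    rcases sand_small hm hW0 hq1 hq hper with ⟨g, hg1, hgp, hgd, hg⟩ | ⟨h, _⟩
    swap
    · exact absurd h (by simp)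
    obtain ⟨q', hq1', hq', hper'⟩ := hcon true
    rcases sand_small hm hW0 hq1' hq' hper' with ⟨h, hh1, hhp, hhd, hh⟩ | ⟨_, h⟩
    swap
    · exact hW h
    have hlg : l < g := by
      by_contra hge
      have h2 : g ∣ m + l - g := Nat.dvd_sub hgd (dvd_refl g)
      have h4 := (hg.of_dvd h2) 0 (by omega)
      rw [sand_lt hm, sand_mid (by omega) (by omega), hW0] at h4
      exact absurd h4 (by simp)
    have hlh : l < h := by
      by_contra hge
      apply hW
      intro i hi
      have h2 : h ∣ m + l - h := Nat.dvd_sub hhd (dvd_refl h)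
      have h5 : i % h < h := Nat.mod_lt i hh1
      have h3 := hh.mod (i := i) (by omega)
      have h4 := (hh.of_dvd h2) (i % h) (by omega)
      rw [sand_lt hi] at h3
      rw [← h3, h4, sand_mid (by omega) (by omega)]
    have har := arith' hg1 hh1 hgd hhd hgp hhp hlg hlh
    have hg' : Per m W g := by
      intro i hi
      have := hg i (by omega)
      rwa [sand_lt (by omega), sand_lt hi] at this
    have hh' : Per m W h := by
      intro i hi
      have := hh i (by omega)
      rwa [sand_lt (by omega), sand_lt hi] at this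
    have hd := hg'.gcd hh' (by omega)
    have hd1 : 1 ≤ g.gcd h := Nat.gcd_pos_of_pos_left h hg1
    have hg2 : g ≤ m + l - g := Nat.le_of_dvd (by omega) (Nat.dvd_sub hgd (dvd_refl g))
    have hh2 : h ≤ m + l - h := Nat.le_of_dvd (by omega) (Nat.dvd_sub hhd (dvd_refl h))
    have e1 := hd.pred (Nat.gcd_dvd_left g h) hd1 hg1 (by omega)
    have e2 := hd.pred (Nat.gcd_dvd_right g h) hd1 hh1 (by omega)
    have e3 := hg.pred hgd hg1 (by omega) (by omega : m + l ≤ 2 * m + l)
    have e4 := hh.pred hhd hh1 (by omega) (by omega : m + l ≤ 2 * m + l)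
    rw [sand_lt (by omega), sand_mid (by omega) (by omega)] at e3 e4
    rw [e1.symm.trans e2] at e3
    rw [e3] at e4
    exact absurd e4 (by simp)

lemma per_add {n p : ℕ} {v : ℕ → α} (hv : Per n v p) (q : ℕ) :
    Per n v (p + q) ↔ Per (n - p) v q := by
  constructor
  · intro h i hi
    rw [h i (by omega), hv (i + q) (by omega)]
    congr 1; omega
  · intro h i hi
    rw [h i (by omega), hv (i + q) (by omega)]
    congr 1; omega

/-- **Main lemma on words.** -/
theorem exists_palindrome (n : ℕ) (hn : 1 ≤ n) (u : ℕ → α) (hu : u 0 = u (n - 1)) :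
    ∃ w : ℕ → Bool, w 0 = true ∧ Pal n w ∧ ∀ q, 1 ≤ q → q < n → (Per n w q ↔ Per n u q) := by
  classical
  induction n using Nat.strong_induction_on with
  | _ n ih =>
    rcases Nat.eq_or_lt_of_le hn with rfl | hn2
    · exact ⟨fun _ => true, rfl, fun _ _ => rfl, fun q h1 h2 => by omega⟩
    have hex : ∃ q, 1 ≤ q ∧ Per n u q := ⟨n - 1, by omega, fun i hi => by
      have : i = 0 := by omega
      subst this; rw [hu]; congr 1; omega⟩
    obtain ⟨hp1, hp⟩ := Nat.find_spec hex
    have hmin : ∀ q, 1 ≤ q → q < Nat.find hex → ¬ Per n u q := fun q h1 h2 h3 =>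
      Nat.find_min hex h2 ⟨h1, h3⟩
    have hpn : Nat.find hex ≤ n - 1 := Nat.find_min' hex ⟨by omega, fun i hi => by
      have : i = 0 := by omega
      subst this; rw [hu]; congr 1; omega⟩
    generalize Nat.find hex = p at hp1 hp hmin hpn
    rcases Nat.lt_or_ge n (2 * p) with hlt | hge
    · -- sandwich
      obtain ⟨W, hW0, hWpal, hW⟩ := ih (n - p) (by omega) (by omega) (by
        rw [hp (n - p - 1) (by omega), hu]
        congr 1; omega)
      obtain ⟨c, hc⟩ := sandwich (l := 2 * p - n) (by omega : 1 ≤ n - p) (by omega) hW0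
      have e1 : 2 * (n - p) + (2 * p - n) = n := by omega
      have e2 : (n - p) + (2 * p - n) = p := by omega
      have hper := sand_per (m := n - p) (l := 2 * p - n) (c := c) (W := W)
      have hpal := sand_pal (l := 2 * p - n) (c := c) hWpal
      rw [e1] at hper hpal
      rw [e2] at hper
      rw [e1, e2] at hc
      refine ⟨sand (n - p) (2 * p - n) c W, by rw [sand_lt (by omega), hW0], hpal, ?_⟩
      intro q hq1 hqn
      rcases Nat.lt_or_ge q p with hqp | hqp
      · exact ⟨fun h => absurd h (hc q hq1 hqp), fun h => absurd h (hmin q hq1 hqp)⟩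
      · obtain ⟨r, rfl⟩ := Nat.exists_eq_add_of_le hqp
        rw [per_add hper, per_add hp]
        rcases Nat.eq_zero_or_pos r with rfl | hr
        · exact ⟨fun _ _ _ => by simp, fun _ _ _ => by simp⟩
        · rw [← hW r hr (by omega)]
          constructor
          · intro h i hi
            have := h i hi
            rwa [sand_lt (by omega), sand_lt hi] at this
          · intro h i hi
            rw [sand_lt (by omega), sand_lt hi]
            exact h i hi
    · -- periodic extension
      have hdm : n = n / p * p + n % p := by rw [Nat.mul_comm]; exact (Nat.div_add_mod n p).symm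
      have hs : n % p < p := Nat.mod_lt n hp1
      have ht : 2 ≤ n / p := (Nat.le_div_iff_mul_le hp1).2 hge
      have h2 : p + n % p + p ≤ n := by
        have h3 : 2 * p ≤ n / p * p := Nat.mul_le_mul_right p ht
        omega
      obtain ⟨W, hW0, hWpal, hW⟩ := ih (p + n % p) (by omega) (by omega) (by
        have h3 := (hp.mul (n / p - 1)) (p + n % p - 1) (by
          have : (n / p - 1) * p + p = n / p * p := by
            conv_rhs => rw [show n / p = (n / p - 1) + 1 by omega]
            ring
          omega)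
        rw [h3, hu]
        congr 1
        have : (n / p - 1) * p + p = n / p * p := by
          conv_rhs => rw [show n / p = (n / p - 1) + 1 by omega]
          ring
        omega)
      obtain ⟨h3, h4⟩ := ext_case hp1 hdm hs ht hp hmin hW
      exact ⟨fun i => W (i % p), by simpa using hW0, ext_pal hp1 hdm hs h3 hWpal, h4⟩

end Pool.Agent.H62.Hertz
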